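import Mathlib
import Pool.Agent.H208Z.NetDefs
import Pool.Agent.H208Z.NetLamp

set_option autoImplicit false

namespace Pool.Agent.Results.MP_2d87f2_co.ANoUniformConstant

open Pool.Agent.H208Z.Net

/-- Negative answer to Q2.  There is a degree `D` such that for every `C > 0` some infinite
connected vertex-transitive graph `G`, regular of degree `D` and with Cheeger constant at least
one, has a `k`-net graph whose Cheeger constant is below `C`, hence below `C * h(G)`. -/
theorem result : ∃ D : ℕ, ∀ C : ℝ, 0 < C →
    ∃ (V : Type) (G : SimpleGraph V), Infinite V ∧ G.Connected ∧ VertexTransitive G ∧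
      (∀ v, (G.neighborSet v).Finite ∧ (G.neighborSet v).ncard = D) ∧ 1 ≤ cheeger G ∧
      ∃ (k : ℕ) (S : Set V), 1 ≤ k ∧ IsNet G k S ∧ cheeger (netGraph G k S) < C ∧
        cheeger (netGraph G k S) < C * cheeger G :=
  exact_example

end Pool.Agent.Results.MP_2d87f2_co.ANoUniformConstant
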